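import Mathlib
import Pool.Agent.Helper76_LAG.Res
import Pool.Agent.Helper76_LAG.All

set_option autoImplicit false

open SimpleGraph

namespace Pool.Agent.Results.MP_0a041d_co.LogarithmicGirth

/-- The linear arboricity of `G`: the least `k` such that `G` is the union of `k` linear forests
(acyclic graphs all of whose degrees are at most two) on the vertex set of `G`. -/
noncomputable def la {V : Type} (G : SimpleGraph V) : ℕ :=
  sInf {k : ℕ | ∃ F : Fin k → SimpleGraph V,
    (∀ i, (F i).IsAcyclic ∧ ∀ v, ((F i).neighborSet v).ncard ≤ 2) ∧ (⨆ i, F i) = G}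

/-- **The linear arboricity conjecture for graphs of logarithmic girth.**
If all cycles of the finite graph `G` of maximum degree `Δ` have length at least `800 log (Δ + 2)`,
then `la G ≤ ⌈(Δ+1)/2⌉`; if `G` is `r`-regular with `r ≥ 1` and all its cycles have length at least
`800 log (r + 2)`, then `la G = ⌈(r+1)/2⌉`. -/
theorem result :
    (∀ (V : Type) [Fintype V] (G : SimpleGraph V) [DecidableRel G.Adj],
      (∀ (v : V) (c : G.Walk v v), c.IsCycle → 800 * Real.log (G.maxDegree + 2) ≤ c.length) →
      la G ≤ (G.maxDegree + 2) / 2) ∧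
    (∀ (V : Type) [Fintype V] [Nonempty V] (G : SimpleGraph V) [DecidableRel G.Adj] (r : ℕ),
      0 < r → G.IsRegularOfDegree r →
      (∀ (v : V) (c : G.Walk v v), c.IsCycle → 800 * Real.log (r + 2) ≤ c.length) →
      la G = (r + 2) / 2) :=
  ⟨fun V _ G _ hg => Pool.Agent.LAG.Res.upper Pool.Agent.LAG.fin V G hg,
    fun V _ _ G _ r hr hreg hg => Pool.Agent.LAG.Res.regular Pool.Agent.LAG.fin V G r hr hreg hg⟩

end Pool.Agent.Results.MP_0a041d_co.LogarithmicGirth
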